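import Pool.Agent.Lib.H98Z.S3
import Pool.Agent.Lib.H24B.B5

/-!
# H98Z, file S4: plane perfect matchings for every balanced colouring, from (Z)
-/

set_option autoImplicit false
set_option linter.unusedSectionVars false

namespace H98Z

open Finset H98P

theorem acy_transport {E E' : Type*} [Fintype E] [DecidableEq E] [Fintype E'] [DecidableEq E']
    {cross : E → E → Prop} (f : E' ↪ E) {S : Finset E'} (h : Acy cross (S.map f)) :
    Acy (fun x y => cross (f x) (f y)) S := by
  classical
  intro z hz hb
  set P : Finset E → Prop := fun s => ∀ e ∈ s, ∃ x, f x = e with hP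
  set pre : Finset E → Finset E' := fun s => univ.filter fun x => f x ∈ s with hpre
  have hpm : ∀ r : Finset E', pre (r.map f) = r := by
    intro r
    ext x
    rw [hpre]
    simp
  have hmp : ∀ s : Finset E, P s → (pre s).map f = s := by
    intro s hs
    ext e
    rw [mem_map]
    constructor
    · rintro ⟨x, hx, rfl⟩
      rw [hpre] at hx
      exact (mem_filter.1 hx).2
    · intro he
      obtain ⟨x, rfl⟩ := hs e he
      exact ⟨x, by rw [hpre]; exact mem_filter.2 ⟨mem_univ _, he⟩, rfl⟩
  have hPm : ∀ r : Finset E', P (r.map f) := by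
    intro r e he
    obtain ⟨x, _, rfl⟩ := mem_map.1 he
    exact ⟨x, rfl⟩
  obtain ⟨c, hc1, hc2⟩ := h (fun s => if P s then z (pre s) else 0) (by
    intro s hs
    split_ifs at hs with h1
    · obtain ⟨h2, h3⟩ := hz _ hs
      rw [← hmp s h1]
      refine ⟨map_subset_map.2 h2, ?_⟩
      intro e he g hg
      obtain ⟨x, hx, rfl⟩ := mem_map.1 he
      obtain ⟨y, hy, rfl⟩ := mem_map.1 hg
      exact h3 x hx y hy
    · exact absurd rfl hs) (by
    intro r
    by_cases h1 : P r
    · have h2 := hb (pre r)
      refine Eq.trans ?_ h2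
      simp only [bd]
      symm
      have h3 : ∀ x ∈ (pre r)ᶜ, z (insert x (pre r)) =
          (if P (insert (f x) r) then z (pre (insert (f x) r)) else 0) := by
        intro x _
        have h4 : P (insert (f x) r) := by
          intro e he
          rcases mem_insert.1 he with rfl | he
          · exact ⟨x, rfl⟩
          · exact h1 e he
        rw [if_pos h4]
        congr 1
        ext y
        rw [hpre]
        simp only [mem_insert, mem_filter, mem_univ, true_and, f.injective.eq_iff]
      rw [sum_congr rfl h3, ← sum_map (pre r)ᶜ f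
        (fun e => if P (insert e r) then z (pre (insert e r)) else 0)]
      apply sum_subset
      · intro e he
        obtain ⟨x, hx, rfl⟩ := mem_map.1 he
        rw [mem_compl] at hx ⊢
        intro h5
        apply hx
        rw [hpre]
        exact mem_filter.2 ⟨mem_univ _, h5⟩
      · intro e he1 he2
        rw [if_neg]
        intro h5
        obtain ⟨x, rfl⟩ := h5 e (mem_insert_self _ _)
        apply he2
        rw [mem_map]
        refine ⟨x, ?_, rfl⟩
        rw [mem_compl] at he1 ⊢
        intro h6
        apply he1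
        rw [hpre] at h6
        exact (mem_filter.1 h6).2
    · simp only [bd]
      refine sum_eq_zero fun e _ => ?_
      rw [if_neg]
      intro h2
      exact h1 fun g hg => h2 g (mem_insert_of_mem hg))
  refine ⟨fun s => c (s.map f), ?_, ?_⟩
  · intro s hs
    obtain ⟨h1, h2⟩ := hc1 _ hs
    refine ⟨map_subset_map.1 h1, fun x hx y hy => ?_⟩
    exact h2 _ (mem_map_of_mem f hx) _ (mem_map_of_mem f hy)
  · intro r
    have h1 := hc2 (r.map f)
    rw [if_pos (hPm r), hpm] at h1
    rw [← h1]
    simp only [bd]
    have h2 : ∀ x ∈ rᶜ, c ((insert x r).map f) = c (insert (f x) (r.map f)) := by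
      intro x _
      rw [map_insert]
    rw [sum_congr rfl h2, ← sum_map rᶜ f (fun e => c (insert e (r.map f)))]
    apply sum_subset
    · intro e he
      obtain ⟨x, hx, rfl⟩ := mem_map.1 he
      rw [mem_compl] at hx ⊢
      intro h5
      obtain ⟨y, hy, hxy⟩ := mem_map.1 h5
      exact hx (f.injective hxy ▸ hy)
    · intro e he1 he2
      by_contra h5
      obtain ⟨x, hx, rfl⟩ := mem_map.1 ((hc1 _ h5).1 (mem_insert_self _ _))
      apply he2
      refine mem_map_of_mem f ?_
      rw [mem_compl] at he1 ⊢
      exact fun h6 => he1 (mem_map_of_mem f h6)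

variable {V : Type*} [Fintype V] [DecidableEq V]

/-- PERFECT MATCHINGS. If (Z) holds for all vertex sets, every two disjoint vertex sets of the same
size are joined by a plane perfect matching. -/
theorem perfect_of_hz {cross : Sym2 V → Sym2 V → Prop} (hsymm : ∀ e f, cross e f → cross f e)
    (hadj : ∀ a b c, ¬ cross s(a, b) s(a, c)) (hZ : ∀ W : Finset V, HZ cross W)
    {A B : Finset V} (hAB : Disjoint A B) (h : A.card = B.card) :
    ∃ f : A ≃ B, ∀ a a' : A, ¬ cross s(a.1, (f a).1) s(a'.1, (f a').1) := by
  classical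
  have hinj : Function.Injective (fun p : A × B => s(p.1.1, p.2.1)) := by
    rintro ⟨⟨a, ha⟩, ⟨b, hb⟩⟩ ⟨⟨a', ha'⟩, ⟨b', hb'⟩⟩ h1
    rw [Sym2.eq_iff] at h1
    rcases h1 with ⟨h2, h3⟩ | ⟨h2, h3⟩
    · simp only at h2 h3
      subst h2 h3
      rfl
    · simp only at h2 h3
      subst h2 h3
      exact absurd hb' (disjoint_left.1 hAB ha)
  have hac : H24B.Acyc (fun p q : A × B => cross s(p.1.1, p.2.1) s(q.1.1, q.2.1)) := by
    intro A' B' hA' hB'
    have h1 : Disjoint (A'.map (Function.Embedding.subtype _))
        (B'.map (Function.Embedding.subtype _)) := by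
      rw [disjoint_left]
      intro x hx hy
      obtain ⟨a, _, rfl⟩ := mem_map.1 hx
      obtain ⟨b, _, hb⟩ := mem_map.1 hy
      have h2 : (b : V) = a := hb
      exact disjoint_left.1 hAB a.2 (h2 ▸ b.2)
    have h2 := acy_br hsymm h1 (hA'.map) (hB'.map) (hZ _)
    have h3 : (A' ×ˢ B').map ⟨fun p : A × B => s(p.1.1, p.2.1), hinj⟩ =
        br (A'.map (Function.Embedding.subtype _)) (B'.map (Function.Embedding.subtype _)) := by
      ext e
      rw [mem_map, mem_br]
      constructor
      · rintro ⟨⟨a, b⟩, hp, rfl⟩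
        rw [mem_product] at hp
        exact ⟨a.1, mem_map_of_mem _ hp.1, b.1, mem_map_of_mem _ hp.2, rfl⟩
      · rintro ⟨x, hx, y, hy, rfl⟩
        obtain ⟨a, ha, rfl⟩ := mem_map.1 hx
        obtain ⟨b, hb, rfl⟩ := mem_map.1 hy
        exact ⟨(a, b), mem_product.2 ⟨ha, hb⟩, rfl⟩
    rw [← h3] at h2
    exact acy_transport _ h2
  obtain ⟨f, hf⟩ := H24B.perfect (α := A) (β := B)
    (cross := fun p q => cross s(p.1.1, p.2.1) s(q.1.1, q.2.1))
    (fun a b b' => hadj _ _ _) (fun a a' b hx => by
      apply hadj b.1 a.1 a'.1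
      rw [Sym2.eq_swap (a := b.1) (b := a.1), Sym2.eq_swap (a := b.1) (b := a'.1)]
      exact hx) hac (by rw [Fintype.card_coe, Fintype.card_coe]; exact h)
  exact ⟨f, hf⟩

end H98Z
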