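import Pool.Agent.Lib.H98Z.S1

/-!
# H98Z, file S2: bipartite complexes of plane sets are acyclic, from the acyclicity of the complexes
of the edges leaving a component

`HZ cross W`: for every plane set `F` of edges of `W` and every component `C ≠ W` of `F` the complex
of plane sets of edges from `C` to `W \ C` which miss `F` is acyclic.
-/

set_option autoImplicit false
set_option linter.unusedSectionVars false

namespace H98Z

open Finset H98P

variable {V : Type*} [Fintype V] [DecidableEq V]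

/-- The edges between `A` and `B`. -/
def br {X : Type*} [DecidableEq X] (A B : Finset X) : Finset (Sym2 X) :=
  (A ×ˢ B).image fun p => s(p.1, p.2)

theorem mem_br {A B : Finset V} {e : Sym2 V} : e ∈ br A B ↔ ∃ a ∈ A, ∃ b ∈ B, s(a, b) = e := by
  unfold br
  rw [mem_image]
  constructor
  · rintro ⟨p, hp, rfl⟩
    rw [mem_product] at hp
    exact ⟨p.1, hp.1, p.2, hp.2, rfl⟩
  · rintro ⟨a, ha, b, hb, rfl⟩
    exact ⟨(a, b), mem_product.2 ⟨ha, hb⟩, rfl⟩

theorem mem_LW {W : Finset V} {x y : V} : s(x, y) ∈ LW W ↔ x ∈ W ∧ y ∈ W ∧ x ≠ y := by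
  unfold LW
  rw [mem_filter, mk_mem_sym2_iff, Sym2.mk_isDiag_iff]
  tauto

theorem LW_mono {W W' : Finset V} (h : W ⊆ W') : LW W ⊆ LW W' := by
  intro e he
  induction e with
  | _ x y =>
    rw [mem_LW] at he ⊢
    exact ⟨h he.1, h he.2.1, he.2.2⟩

/-- `C` is connected by the edges of `F`. -/
def Conn (F : Finset (Sym2 V)) (C : Finset V) : Prop :=
  ∀ D ⊆ C, D.Nonempty → D ≠ C → ∃ x ∈ D, ∃ y ∈ C \ D, s(x, y) ∈ F

theorem Conn.mono {F F' : Finset (Sym2 V)} {C : Finset V} (h : Conn F C) (hF : F ⊆ F') :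
    Conn F' C := by
  intro D h1 h2 h3
  obtain ⟨x, hx, y, hy, h4⟩ := h D h1 h2 h3
  exact ⟨x, hx, y, hy, hF h4⟩

/-- The edges leaving a component of a plane set form acyclic complexes. -/
def HZ (cross : Sym2 V → Sym2 V → Prop) (W : Finset V) : Prop :=
  ∀ (F : Finset (Sym2 V)) (C : Finset V), F ⊆ LW W → Plane cross F → C ⊆ W → C.Nonempty →
    C ≠ W → (∀ x ∈ C, ∀ y ∈ W \ C, s(x, y) ∉ F) → Conn F C →
    Acy cross (Miss cross (br C (W \ C)) F)

theorem theorem3 {cross : Sym2 V → Sym2 V → Prop} (hsymm : ∀ e f, cross e f → cross f e)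
    {A B : Finset V} (hAB : Disjoint A B) (hB : B.Nonempty) (hZ : HZ cross (A ∪ B)) :
    ∀ (k : ℕ) (O : Finset (Sym2 V)) (C : Finset V), (A \ C).card = k → C ⊆ A → C.Nonempty →
      O ⊆ LW C → Plane cross O → Conn O C → Acy cross (Miss cross (br A B) O) := by
  intro k
  induction k using Nat.strong_induction_on with
  | _ k ih =>
    intro O C hk hCA hCn hOC hO hconn
    have hne : C ≠ A ∪ B := by
      rintro h
      obtain ⟨b, hb⟩ := hB
      have h1 : b ∈ C := by rw [h]; exact mem_union_right _ hb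
      exact disjoint_left.1 hAB (hCA h1) hb
    have hCW : C ⊆ A ∪ B := hCA.trans subset_union_left
    have hOW : O ⊆ LW (A ∪ B) := hOC.trans (LW_mono hCW)
    have hO2 : ∀ x ∈ C, ∀ y ∈ (A ∪ B) \ C, s(x, y) ∉ O := by
      intro x _ y hy h
      exact (mem_sdiff.1 hy).2 (mem_LW.1 (hOC h)).2.1
    set S1 := Miss cross (br A B) O with hS1
    set S2 := Miss cross (br C ((A ∪ B) \ C)) O with hS2
    have hA2 : Acy cross S2 := hZ O C hOW hO hCW hCn hne hO2 hconn
    have hu : S2 ∪ (S1 \ S2) = S1 ∪ (S2 \ S1) := by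
      rw [union_sdiff_self_eq_union, union_sdiff_self_eq_union, union_comm]
    have hK : Acy cross (S2 ∪ (S1 \ S2)) := by
      refine split_mpr hsymm disjoint_sdiff (fun Y hY _ hYp => ?_) hA2
      rw [hS2, miss_miss]
      have hYS : ∀ e ∈ Y, e ∈ S1 := fun e he => (mem_sdiff.1 (hY he)).1
      refine hZ (O ∪ Y) C ?_ ?_ hCW hCn hne ?_ (hconn.mono subset_union_left)
      · refine union_subset hOW fun e he => ?_
        obtain ⟨a, ha, b, hb, rfl⟩ := mem_br.1 (mem_miss.1 (hYS e he)).1
        rw [mem_LW]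
        exact ⟨mem_union_left _ ha, mem_union_right _ hb,
          fun h => disjoint_left.1 hAB ha (h ▸ hb)⟩
      · exact plane_un hsymm hO hYp fun e he f hf h =>
          (mem_miss.1 (hYS f hf)).2 e he (hsymm _ _ h)
      · intro x hx y hy h
        rcases mem_union.1 h with h1 | h1
        · exact hO2 x hx y hy h1
        · apply (mem_sdiff.1 (hY h1)).2
          rw [hS2, mem_miss]
          exact ⟨mem_br.2 ⟨x, hx, y, hy, rfl⟩, (mem_miss.1 (hYS _ h1)).2⟩
    rw [hu] at hK
    refine split_mp hsymm disjoint_sdiff (fun Y hY hYn hYp => ?_) hK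
    rw [hS1, miss_miss]
    have hYe : ∀ e ∈ Y, ∃ c ∈ C, ∃ x ∈ A \ C, s(c, x) = e := by
      intro e he
      have h1 := mem_sdiff.1 (hY he)
      have h2 := mem_miss.1 h1.1
      obtain ⟨c, hc, x, hx, rfl⟩ := mem_br.1 h2.1
      rw [mem_sdiff, mem_union] at hx
      refine ⟨c, hc, x, mem_sdiff.2 ⟨?_, hx.2⟩, rfl⟩
      rcases hx.1 with h3 | h3
      · exact h3
      · exfalso
        apply h1.2
        rw [hS1, mem_miss]
        exact ⟨mem_br.2 ⟨c, hCA hc, x, h3, rfl⟩, h2.2⟩
    set C' := C ∪ A.filter (fun x => ∃ c ∈ C, s(c, x) ∈ Y) with hC'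
    have hCC : C ⊆ C' := subset_union_left
    have hC'A : C' ⊆ A := union_subset hCA (filter_subset _ _)
    have hYC : ∀ c ∈ C, ∀ x ∈ A, s(c, x) ∈ Y → x ∈ C' := by
      intro c hc x hx h
      exact mem_union_right _ (mem_filter.2 ⟨hx, c, hc, h⟩)
    have hlt : (A \ C').card < k := by
      rw [← hk]
      apply card_lt_card
      obtain ⟨e, he⟩ := hYn
      obtain ⟨c, hc, x, hx, rfl⟩ := hYe e he
      refine ⟨sdiff_subset_sdiff (le_refl _) hCC, fun h => ?_⟩
      exact (mem_sdiff.1 (h hx)).2 (hYC c hc x (mem_sdiff.1 hx).1 he)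
    refine ih _ hlt (O ∪ Y) C' rfl hC'A (hCn.mono hCC) ?_ ?_ ?_
    · refine union_subset (hOC.trans (LW_mono hCC)) fun e he => ?_
      obtain ⟨c, hc, x, hx, rfl⟩ := hYe e he
      rw [mem_LW]
      refine ⟨hCC hc, hYC c hc x (mem_sdiff.1 hx).1 he, ?_⟩
      rintro rfl
      exact (mem_sdiff.1 hx).2 hc
    · exact plane_un hsymm hO hYp fun e he f hf h =>
        (mem_miss.1 (mem_sdiff.1 (hY hf)).1).2 e he (hsymm _ _ h)
    · intro D hD hDn hDne
      by_cases h1 : (D ∩ C).Nonempty
      · by_cases h2 : D ∩ C = C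
        · have h3 : ∃ x ∈ C', x ∉ D := by
            by_contra h
            push Not at h
            exact hDne (subset_antisymm hD h)
          obtain ⟨x, hx, hxD⟩ := h3
          have hCD : C ⊆ D := by
            rw [← h2]
            exact inter_subset_left
          rcases mem_union.1 hx with h4 | h4
          · exact absurd (hCD h4) hxD
          · obtain ⟨_, c, hc, h5⟩ := mem_filter.1 h4
            exact ⟨c, hCD hc, x, mem_sdiff.2 ⟨hx, hxD⟩, mem_union_right _ h5⟩
        · obtain ⟨x, hx, y, hy, h3⟩ := hconn (D ∩ C) inter_subset_right h1 h2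
          rw [mem_sdiff, mem_inter] at hy
          refine ⟨x, (mem_inter.1 hx).1, y, mem_sdiff.2 ⟨hCC hy.1, fun h => hy.2 ⟨h, hy.1⟩⟩,
            mem_union_left _ h3⟩
      · obtain ⟨x, hx⟩ := hDn
        have hxC : x ∉ C := fun h => h1 ⟨x, mem_inter.2 ⟨hx, h⟩⟩
        rcases mem_union.1 (hD hx) with h4 | h4
        · exact absurd h4 hxC
        · obtain ⟨_, c, hc, h5⟩ := mem_filter.1 h4
          refine ⟨x, hx, c, mem_sdiff.2 ⟨hCC hc, fun h => h1 ⟨c, mem_inter.2 ⟨h, hc⟩⟩⟩,
            mem_union_right _ ?_⟩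
          rw [Sym2.eq_swap]
          exact h5

theorem miss_empty {E : Type*} [Fintype E] [DecidableEq E] {cross : E → E → Prop}
    {S : Finset E} : Miss cross S ∅ = S := by
  ext e
  rw [mem_miss]
  exact ⟨fun h => h.1, fun h => ⟨h, fun y hy => absurd hy (notMem_empty y)⟩⟩

/-- (Z) implies that the complex of the plane sets of `A`-`B` edges is acyclic. -/
theorem acy_br {cross : Sym2 V → Sym2 V → Prop} (hsymm : ∀ e f, cross e f → cross f e)
    {A B : Finset V} (hAB : Disjoint A B) (hA : A.Nonempty) (hB : B.Nonempty)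
    (hZ : HZ cross (A ∪ B)) : Acy cross (br A B) := by
  obtain ⟨a, ha⟩ := hA
  have h := theorem3 hsymm hAB hB hZ _ ∅ {a} rfl (singleton_subset_iff.2 ha)
    (singleton_nonempty a) (empty_subset _) (fun e he => absurd he (notMem_empty e)) (by
      intro D hD hDn hne
      exfalso
      apply hne
      apply subset_antisymm hD
      rw [singleton_subset_iff]
      obtain ⟨x, hx⟩ := hDn
      have h1 := hD hx
      rw [mem_singleton] at h1
      rwa [← h1])
  rwa [miss_empty] at h

end H98Z
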