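import Pool.Agent.Lib.H98Z.S2

/-!
# H98Z, file S3: from (M*) for minimum degree two and two free rays to (Z)
-/

set_option autoImplicit false
set_option linter.unusedSectionVars false

namespace H98Z

open Finset H98P

variable {V : Type*} [Fintype V] [DecidableEq V]

/-- Two free rays: past every plane set of edges of `W - p` the vertex `p` sees two vertices. -/
def V2 (cross : Sym2 V → Sym2 V → Prop) (W : Finset V) (p : V) : Prop :=
  ∀ F : Finset (Sym2 V), F ⊆ LW (W.erase p) → Plane cross F →
    ∃ z ∈ W.erase p, ∃ z' ∈ W.erase p, z ≠ z' ∧ (∀ f ∈ F, ¬ cross s(p, z) f) ∧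
      ∀ f ∈ F, ¬ cross s(p, z') f

/-- The edges of `W` outside `F` which cross nothing of `F`. -/
noncomputable def Un (cross : Sym2 V → Sym2 V → Prop) (W : Finset V) (F : Finset (Sym2 V)) :
    Finset (Sym2 V) :=
  Miss cross (LW W) F \ F

theorem mem_un {cross : Sym2 V → Sym2 V → Prop} {W : Finset V} {F : Finset (Sym2 V)}
    {e : Sym2 V} : e ∈ Un cross W F ↔ e ∈ LW W ∧ (∀ f ∈ F, ¬ cross e f) ∧ e ∉ F := by
  unfold Un
  rw [mem_sdiff, mem_miss]
  tauto

/-- The complex of a nonempty plane set with all its subsets is acyclic. -/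
theorem acy_simplex {E : Type*} [Fintype E] [DecidableEq E] {cross : E → E → Prop}
    (hsymm : ∀ e f, cross e f → cross f e) {S : Finset E} (hS : Plane cross S)
    (hn : S.Nonempty) : Acy cross S := by
  intro z hz hb
  obtain ⟨e, he⟩ := hn
  refine acyclic hsymm (le_refl S) hS (fun F hF _ => ⟨e, he, fun f hf => ?_⟩) hz hb
  rw [sdiff_self] at hF
  exact absurd (hF hf) (notMem_empty f)

/-- A vertex of degree at most one in `F`: the complex of the plane sets of `Un F` is acyclic. -/
theorem acy_leaf {cross : Sym2 V → Sym2 V → Prop} (hsymm : ∀ e f, cross e f → cross f e)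
    (hadj : ∀ a b c, ¬ cross s(a, b) s(a, c)) {W : Finset V} {F : Finset (Sym2 V)}
    (hF : F ⊆ LW W) (hFp : Plane cross F) {x y : V} (hx : x ∈ W) (hV : V2 cross W x)
    (hdeg : ∀ z, s(x, z) ∈ F → z = y) : Acy cross (Un cross W F) := by
  intro z hz hb
  refine acyclic (S := (Un cross W F).filter fun e => x ∈ e) hsymm (filter_subset _ _) ?_ ?_ hz hb
  · intro e he f hf
    have h1 := (mem_filter.1 he).2
    have h2 := (mem_filter.1 hf).2
    obtain ⟨a, rfl⟩ := h1
    obtain ⟨b, rfl⟩ := h2
    exact hadj x a b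
  · intro G hG hGp
    have hGx : ∀ e ∈ G, x ∉ e := by
      intro e he hx
      have h1 := mem_sdiff.1 (hG he)
      exact h1.2 (mem_filter.2 ⟨h1.1, hx⟩)
    have hGU : ∀ e ∈ G, e ∈ Un cross W F := fun e he => (mem_sdiff.1 (hG he)).1
    obtain ⟨z, hz, z', hz', hne, h1, h2⟩ := hV ((F.filter fun e => x ∉ e) ∪ G) (by
      intro e he
      have h3 : e ∈ LW W ∧ x ∉ e := by
        rcases mem_union.1 he with h | h
        · exact ⟨hF (mem_filter.1 h).1, (mem_filter.1 h).2⟩
        · exact ⟨(mem_un.1 (hGU e h)).1, hGx e h⟩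
      obtain ⟨h4, h5⟩ := h3
      induction e with
      | _ a b =>
        rw [mem_LW] at h4 ⊢
        rw [Sym2.mem_iff, not_or] at h5
        exact ⟨mem_erase.2 ⟨Ne.symm h5.1, h4.1⟩, mem_erase.2 ⟨Ne.symm h5.2, h4.2.1⟩, h4.2.2⟩) (by
      refine plane_un hsymm (plane_sub (filter_subset _ _) hFp) hGp ?_
      intro e he f hf h
      exact (mem_un.1 (hGU f hf)).2.1 e (mem_filter.1 he).1 (hsymm _ _ h))
    have key : ∀ w ∈ W.erase x, w ≠ y →
        (∀ f ∈ (F.filter fun e => x ∉ e) ∪ G, ¬ cross s(x, w) f) →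
        ∃ s ∈ (Un cross W F).filter fun e => x ∈ e, ∀ f ∈ G, ¬ cross s f := by
      intro w hw hwy h3
      refine ⟨s(x, w), mem_filter.2 ⟨mem_un.2 ⟨?_, ?_, ?_⟩, Sym2.mem_mk_left x w⟩, ?_⟩
      · rw [mem_LW]
        exact ⟨hx, (mem_erase.1 hw).2, Ne.symm (mem_erase.1 hw).1⟩
      · intro f hf
        by_cases hxf : x ∈ f
        · obtain ⟨a, rfl⟩ := hxf
          exact hadj x w a
        · exact h3 f (mem_union_left _ (mem_filter.2 ⟨hf, hxf⟩))
      · exact fun h => hwy (hdeg w h)
      · exact fun f hf => h3 f (mem_union_right _ hf)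
    by_cases hzy : z = y
    · exact key z' hz' (fun h => hne (hzy.trans h.symm)) h2
    · exact key z hz hzy h1

/-- (M*) for minimum degree at least two. -/
def HM (cross : Sym2 V → Sym2 V → Prop) (W : Finset V) : Prop :=
  ∀ (F : Finset (Sym2 V)) (C : Finset V), F ⊆ LW W → Plane cross F → C ⊆ W → C.Nonempty →
    C ≠ W → (∀ x ∈ C, ∀ y ∈ W \ C, s(x, y) ∉ F) → Conn F C →
    (∀ x ∈ W, ∃ y z, y ≠ z ∧ s(x, y) ∈ F ∧ s(x, z) ∈ F) → Acy cross (Un cross W F)

theorem hz_of_hm {cross : Sym2 V → Sym2 V → Prop} (hsymm : ∀ e f, cross e f → cross f e)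
    (hadj : ∀ a b c, ¬ cross s(a, b) s(a, c)) {W : Finset V}
    (hV : 3 ≤ W.card → ∀ p ∈ W, V2 cross W p) (hM : HM cross W) : HZ cross W := by
  rcases Nat.lt_or_ge W.card 3 with hW | hW
  · -- at most two vertices
    intro F C hF hFp hCW hCn hne h1 _
    obtain ⟨a, ha⟩ := hCn
    have h2 : ∃ b ∈ W, b ∉ C := by
      by_contra h
      push Not at h
      exact hne (subset_antisymm hCW h)
    obtain ⟨b, hb, hbC⟩ := h2
    have hab : a ≠ b := fun h => hbC (h ▸ ha)
    have hWe : ∀ x ∈ W, x = a ∨ x = b := by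
      intro x hx
      by_contra h
      push Not at h
      have h3 : ({x, a, b} : Finset V) ⊆ W := by
        intro y hy
        simp only [mem_insert, mem_singleton] at hy
        rcases hy with rfl | rfl | rfl
        · exact hx
        · exact hCW ha
        · exact hb
      have h4 : ({x, a, b} : Finset V).card = 3 := card_eq_three.2 ⟨x, a, b, h.1, h.2, hab, rfl⟩
      have h5 := card_le_card h3
      omega
    have hFe : F = ∅ := by
      rw [eq_empty_iff_forall_notMem]
      intro e he
      have h3 := hF he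
      induction e with
      | _ x y =>
        rw [mem_LW] at h3
        obtain ⟨h4, h5, h6⟩ := h3
        rcases hWe x h4 with rfl | rfl <;> rcases hWe y h5 with rfl | rfl
        · exact h6 rfl
        · exact h1 _ ha _ (mem_sdiff.2 ⟨hb, hbC⟩) he
        · exact h1 _ ha _ (mem_sdiff.2 ⟨hb, hbC⟩) (by rw [Sym2.eq_swap]; exact he)
        · exact h6 rfl
    rw [hFe, miss_empty]
    have hbr : ∀ e ∈ br C (W \ C), e = s(a, b) := by
      intro e he
      obtain ⟨c, hc, d, hd, rfl⟩ := mem_br.1 he
      rw [mem_sdiff] at hd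
      have h3 : c = a := by
        rcases hWe c (hCW hc) with h | h
        · exact h
        · exact absurd (h ▸ hc) hbC
      have h4 : d = b := by
        rcases hWe d hd.1 with h | h
        · exact absurd (h ▸ ha) hd.2
        · exact h
      rw [h3, h4]
    refine acy_simplex hsymm (fun e he f hf => ?_)
      ⟨s(a, b), mem_br.2 ⟨a, ha, b, mem_sdiff.2 ⟨hb, hbC⟩, rfl⟩⟩
    rw [hbr e he, hbr f hf]
    exact hadj a b b
  · have main : ∀ (k : ℕ) (F : Finset (Sym2 V)) (C : Finset V), (LW W).card - F.card = k →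
        F ⊆ LW W → Plane cross F → C ⊆ W → C.Nonempty → C ≠ W →
        (∀ x ∈ C, ∀ y ∈ W \ C, s(x, y) ∉ F) → Conn F C →
        Acy cross (Miss cross (br C (W \ C)) F) := by
      intro k
      induction k using Nat.strong_induction_on with
      | _ k ih =>
        intro F C hk hF hFp hCW hCn hne h1 hconn
        set U1 := Miss cross (br C (W \ C)) F with hU1
        have hsub : U1 ⊆ Un cross W F := by
          intro e he
          rw [hU1, mem_miss] at he
          obtain ⟨h2, h3⟩ := he
          obtain ⟨c, hc, d, hd, rfl⟩ := mem_br.1 h2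
          rw [mem_un, mem_LW]
          exact ⟨⟨hCW hc, (mem_sdiff.1 hd).1, fun h => (mem_sdiff.1 hd).2 (h ▸ hc)⟩, h3,
            h1 c hc d hd⟩
        have hU : U1 ∪ (Un cross W F \ U1) = Un cross W F := by
          rw [union_sdiff_self_eq_union]
          exact union_eq_right.2 hsub
        have hA : Acy cross (Un cross W F) := by
          by_cases hdeg : ∀ x ∈ W, ∃ y z, y ≠ z ∧ s(x, y) ∈ F ∧ s(x, z) ∈ F
          · exact hM F C hF hFp hCW hCn hne h1 hconn hdeg
          · push Not at hdeg
            obtain ⟨x, hx, hdeg⟩ := hdeg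
            by_cases h3 : ∃ y, s(x, y) ∈ F
            · obtain ⟨y, hy⟩ := h3
              refine acy_leaf hsymm hadj hF hFp (y := y) hx (hV hW x hx) fun z hz => ?_
              by_contra h4
              exact hdeg z y h4 hz hy
            · push Not at h3
              exact acy_leaf hsymm hadj hF hFp (y := x) hx (hV hW x hx)
                fun z hz => absurd hz (h3 z)
        rw [← hU] at hA
        refine split_mp hsymm disjoint_sdiff (fun Y hY hYn hYp => ?_) hA
        rw [hU1, miss_miss]
        have hYU : ∀ e ∈ Y, e ∈ Un cross W F := fun e he => (mem_sdiff.1 (hY he)).1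
        have hdis : Disjoint F Y :=
          disjoint_left.2 fun e he hY' => (mem_un.1 (hYU e hY')).2.2 he
        have hsubW : F ∪ Y ⊆ LW W := union_subset hF fun e he => (mem_un.1 (hYU e he)).1
        have hc1 : (F ∪ Y).card = F.card + Y.card := card_union_of_disjoint hdis
        have hc2 := card_le_card hsubW
        have hc3 := card_pos.2 hYn
        refine ih ((LW W).card - (F ∪ Y).card) (by omega) (F ∪ Y) C rfl hsubW ?_ hCW hCn hne ?_
          (hconn.mono subset_union_left)
        · exact plane_un hsymm hFp hYp fun e he f hf h =>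
            (mem_un.1 (hYU f hf)).2.1 e he (hsymm _ _ h)
        · intro x hx y hy h
          rcases mem_union.1 h with h2 | h2
          · exact h1 x hx y hy h2
          · apply (mem_sdiff.1 (hY h2)).2
            rw [hU1, mem_miss]
            exact ⟨mem_br.2 ⟨x, hx, y, hy, rfl⟩, (mem_un.1 (hYU _ h2)).2.1⟩
    intro F C
    exact main _ F C rfl

end H98Z
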