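import Pool.Agent.Lib.H98P.B0
import Pool.Agent.Lib.H98P.AC

/-!
# H98Z, file S1: acyclic complexes of plane sets, the splitting lemma
-/

set_option autoImplicit false
set_option linter.unusedSectionVars false

namespace H98Z

open Finset H98P

variable {E : Type*} [Fintype E] [DecidableEq E]

/-- The complex of the plane subsets of `S` (the empty set included) is acyclic mod 2. -/
def Acy (cross : E → E → Prop) (S : Finset E) : Prop :=
  ∀ z : Finset E → ZMod 2, (∀ s, z s ≠ 0 → s ⊆ S ∧ Plane cross s) → (∀ r, bd z r = 0) →
    ∃ c : Finset E → ZMod 2, (∀ s, c s ≠ 0 → s ⊆ S ∧ Plane cross s) ∧ ∀ r, bd c r = z r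

/-- The elements of `S` which cross nothing of `Y`. -/
noncomputable def Miss (cross : E → E → Prop) (S Y : Finset E) : Finset E :=
  @Finset.filter E (fun e => ∀ y ∈ Y, ¬ cross e y) (Classical.decPred _) S

theorem mem_miss {cross : E → E → Prop} {S Y : Finset E} {e : E} :
    e ∈ Miss cross S Y ↔ e ∈ S ∧ ∀ y ∈ Y, ¬ cross e y :=
  @Finset.mem_filter E (fun e => ∀ y ∈ Y, ¬ cross e y) (Classical.decPred _) S e

theorem miss_miss {cross : E → E → Prop} {S Y Z : Finset E} :
    Miss cross (Miss cross S Y) Z = Miss cross S (Y ∪ Z) := by
  ext e
  rw [mem_miss, mem_miss, mem_miss]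
  constructor
  · rintro ⟨⟨h1, h2⟩, h3⟩
    refine ⟨h1, fun y hy => ?_⟩
    rcases mem_union.1 hy with h | h
    · exact h2 y h
    · exact h3 y h
  · rintro ⟨h1, h2⟩
    exact ⟨⟨h1, fun y hy => h2 y (mem_union_left _ hy)⟩, fun y hy => h2 y (mem_union_right _ hy)⟩

theorem plane_sub {cross : E → E → Prop} {s t : Finset E} (h : s ⊆ t) (ht : Plane cross t) :
    Plane cross s := fun e he f hf => ht e (h he) f (h hf)

theorem plane_un {cross : E → E → Prop} (hsymm : ∀ e f, cross e f → cross f e) {s t : Finset E}
    (hs : Plane cross s) (ht : Plane cross t) (h : ∀ e ∈ s, ∀ f ∈ t, ¬ cross e f) :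
    Plane cross (s ∪ t) := by
  intro e he f hf
  rcases mem_union.1 he with h1 | h1 <;> rcases mem_union.1 hf with h2 | h2
  · exact hs e h1 f h2
  · exact h e h1 f h2
  · exact fun hx => h f h2 e h1 (hsymm _ _ hx)
  · exact ht e h1 f h2

theorem bd_ne {c : Finset E → ZMod 2} {s : Finset E} (h : bd c s ≠ 0) :
    ∃ e, e ∉ s ∧ c (insert e s) ≠ 0 := by
  by_contra hcon
  push Not at hcon
  exact h (sum_eq_zero fun e he => hcon e (mem_compl.1 he))

/-- REDUCTION. -/
theorem red {cross : E → E → Prop} (hsymm : ∀ e f, cross e f → cross f e) {S T : Finset E}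
    (hST : Disjoint S T)
    (hl : ∀ Y ⊆ T, Y.Nonempty → Plane cross Y → Acy cross (Miss cross S Y)) :
    ∀ (k : ℕ) (w : Finset E → ZMod 2), (∀ s, w s ≠ 0 → s ⊆ S ∪ T ∧ Plane cross s) →
      (∀ r, (r ∩ T).Nonempty → bd w r = 0) → (∀ s, k < (s ∩ T).card → w s = 0) →
      ∃ u : Finset E → ZMod 2, (∀ s, u s ≠ 0 → s ⊆ S ∪ T ∧ Plane cross s) ∧
        ∀ s, w s + bd u s ≠ 0 → s ⊆ S ∧ Plane cross s := by
  intro k
  induction k with
  | zero =>
    intro w hw _ hk
    refine ⟨fun _ => 0, fun s hs => absurd rfl hs, ?_⟩
    intro s hs
    rw [bd_zero, add_zero] at hs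
    obtain ⟨h1, h2⟩ := hw s hs
    have h3 : (s ∩ T).card = 0 := by
      by_contra h
      exact hs (hk s (Nat.pos_of_ne_zero h))
    rw [card_eq_zero] at h3
    refine ⟨fun e he => ?_, h2⟩
    rcases mem_union.1 (h1 he) with h4 | h4
    · exact h4
    · exact absurd (mem_inter.2 ⟨he, h4⟩) (by rw [h3]; exact notMem_empty e)
  | succ k ih =>
    intro w hw hz hk
    have key : ∀ Y : Finset E, ∃ c : Finset E → ZMod 2,
        (∀ s, c s ≠ 0 → s ⊆ Miss cross S Y ∧ Plane cross s ∧ Y ⊆ T ∧ Plane cross Y) ∧
        (Y ⊆ T → Y.card = k + 1 → ∀ r, Disjoint r T → bd c r = w (r ∪ Y)) := by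
      intro Y
      by_cases hY : Y ⊆ T ∧ Y.card = k + 1 ∧ Plane cross Y
      · obtain ⟨hYT, hYc, hYp⟩ := hY
        have hYn : Y.Nonempty := card_pos.1 (by omega)
        obtain ⟨c, hc1, hc2⟩ := hl Y hYT hYn hYp (fun s => if s ⊆ S then w (s ∪ Y) else 0) (by
          intro s hs
          by_cases h : s ⊆ S
          · simp only [h, if_true] at hs
            obtain ⟨h1, h2⟩ := hw _ hs
            refine ⟨fun e he => mem_miss.2 ⟨h he, fun y hy => ?_⟩, plane_sub subset_union_left h2⟩
            exact h2 e (mem_union_left _ he) y (mem_union_right _ hy)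
          · simp only [h, if_false] at hs
            exact absurd rfl hs) (by
          intro r
          by_cases h : r ⊆ S
          · have hrT : Disjoint r T := disjoint_of_subset_left h hST
            have e1 : bd w (r ∪ Y) = 0 := by
              apply hz
              obtain ⟨y, hy⟩ := hYn
              exact ⟨y, mem_inter.2 ⟨mem_union_right _ hy, hYT hy⟩⟩
            refine Eq.trans ?_ e1
            simp only [bd]
            symm
            have hsub : (r ∪ Y)ᶜ ⊆ rᶜ := compl_subset_compl.2 subset_union_left
            rw [← sum_subset hsub]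
            · refine sum_congr rfl fun e he => ?_
              rw [mem_compl] at he
              by_cases heS : e ∈ S
              · have h3 : insert e r ⊆ S := insert_subset heS h
                rw [if_pos h3, insert_union]
              · have h3 : ¬ insert e r ⊆ S := fun h4 => heS (h4 (mem_insert_self _ _))
                rw [if_neg h3]
                by_contra h5
                have h6 := (hw _ h5).1 (mem_insert_self _ _)
                have heT : e ∈ T := by
                  rcases mem_union.1 h6 with h7 | h7
                  · exact absurd h7 heS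
                  · exact h7
                apply h5
                apply hk
                have h8 : insert e Y ⊆ insert e (r ∪ Y) ∩ T := by
                  intro x hx
                  rcases mem_insert.1 hx with rfl | hx
                  · exact mem_inter.2 ⟨mem_insert_self _ _, heT⟩
                  · exact mem_inter.2 ⟨mem_insert_of_mem (mem_union_right _ hx), hYT hx⟩
                have h9 := card_le_card h8
                rw [card_insert_of_notMem (fun h => he (mem_union_right _ h)), hYc] at h9
                omega
            · intro e he1 he2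
              have heY : e ∈ Y := by
                rw [mem_compl] at he1 he2
                by_contra h5
                apply he2
                intro h6
                rcases mem_union.1 h6 with h7 | h7
                · exact he1 h7
                · exact h5 h7
              rw [if_neg]
              intro h3
              exact disjoint_left.1 hST (h3 (mem_insert_self _ _)) (hYT heY)
          · simp only [bd]
            refine sum_eq_zero fun e _ => ?_
            rw [if_neg]
            intro h3
            exact h ((subset_insert _ _).trans h3))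
        refine ⟨c, fun s hs => ⟨(hc1 s hs).1, (hc1 s hs).2, hYT, hYp⟩, ?_⟩
        intro _ _ r hr
        rw [hc2 r]
        by_cases h : r ⊆ S
        · rw [if_pos h]
        · rw [if_neg h]
          by_contra h1
          apply h
          intro e he
          have h2 := (hw _ (Ne.symm h1)).1 (mem_union_left _ he)
          rcases mem_union.1 h2 with h3 | h3
          · exact h3
          · exact absurd h3 (disjoint_left.1 hr he)
      · refine ⟨fun _ => 0, fun s hs => absurd rfl hs, ?_⟩
        intro h1 h2 r _
        rw [bd_zero]
        by_contra h3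
        apply hY
        exact ⟨h1, h2, plane_sub subset_union_right (hw _ (Ne.symm h3)).2⟩
    choose c hc1 hc2 using key
    set u₁ : Finset E → ZMod 2 :=
      fun s => if (s ∩ T).card = k + 1 then c (s ∩ T) (s \ T) else 0 with hu
    have hu1 : ∀ s, u₁ s ≠ 0 → s ⊆ S ∪ T ∧ Plane cross s := by
      intro s hs
      rw [hu] at hs
      simp only at hs
      split_ifs at hs with h
      · obtain ⟨h1, h2, h3, h4⟩ := hc1 _ _ hs
        have hs' : s = (s \ T) ∪ (s ∩ T) := by
          ext x
          simp only [mem_union, mem_sdiff, mem_inter]
          tauto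
        constructor
        · intro e he
          by_cases heT : e ∈ T
          · exact mem_union_right _ heT
          · exact mem_union_left _ (mem_miss.1 (h1 (mem_sdiff.2 ⟨he, heT⟩))).1
        · rw [hs']
          exact plane_un hsymm h2 h4 fun e he f hf => (mem_miss.1 (h1 he)).2 f hf
      · exact absurd rfl hs
    have hbu : ∀ s, bd u₁ s ≠ 0 → s ⊆ S ∪ T ∧ Plane cross s := by
      intro s hs
      obtain ⟨e, _, he⟩ := bd_ne hs
      obtain ⟨h1, h2⟩ := hu1 _ he
      exact ⟨(subset_insert _ _).trans h1, plane_sub (subset_insert _ _) h2⟩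
    have hlev : ∀ s, k < (s ∩ T).card → w s + bd u₁ s = 0 := by
      intro s hs
      rcases Nat.lt_or_ge (k + 1) (s ∩ T).card with h | h
      · rw [hk s h, zero_add]
        unfold bd
        refine sum_eq_zero fun e _ => ?_
        rw [hu]
        simp only
        rw [if_neg]
        have h1 : s ∩ T ⊆ insert e s ∩ T := inter_subset_inter_right (subset_insert _ _)
        have h2 := card_le_card h1
        omega
      · have hcard : (s ∩ T).card = k + 1 := by omega
        have hr : Disjoint (s \ T) T := sdiff_disjoint
        have h1 := hc2 (s ∩ T) inter_subset_right hcard (s \ T) hr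
        have hs' : (s \ T) ∪ (s ∩ T) = s := by
          ext x
          simp only [mem_union, mem_sdiff, mem_inter]
          tauto
        rw [hs'] at h1
        have h2 : bd u₁ s = bd (c (s ∩ T)) (s \ T) := by
          unfold bd
          have a1 : ∑ e ∈ sᶜ, u₁ (insert e s) = ∑ e ∈ sᶜ \ T, c (s ∩ T) (insert e (s \ T)) := by
            symm
            rw [← sum_subset (sdiff_subset : sᶜ \ T ⊆ sᶜ)]
            · refine sum_congr rfl fun e he => ?_
              rw [mem_sdiff, mem_compl] at he
              obtain ⟨he1, he2⟩ := he
              have b1 : insert e s ∩ T = s ∩ T := by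
                ext x
                simp only [mem_inter, mem_insert]
                constructor
                · rintro ⟨rfl | h3, h4⟩
                  · exact absurd h4 he2
                  · exact ⟨h3, h4⟩
                · rintro ⟨h3, h4⟩
                  exact ⟨Or.inr h3, h4⟩
              have b2 : insert e s \ T = insert e (s \ T) := insert_sdiff_of_notMem _ he2
              rw [hu]
              simp only
              rw [b1, if_pos hcard, b2]
            · intro e he1 he2
              rw [mem_compl] at he1
              have heT : e ∈ T := by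
                by_contra h3
                exact he2 (mem_sdiff.2 ⟨mem_compl.2 he1, h3⟩)
              rw [hu]
              simp only
              rw [if_neg]
              have b1 : insert e s ∩ T = insert e (s ∩ T) := insert_inter_of_mem heT
              rw [b1, card_insert_of_notMem (fun h3 => he1 (mem_inter.1 h3).1), hcard]
              omega
          rw [a1]
          apply sum_subset
          · intro e he
            rw [mem_sdiff, mem_compl] at he
            rw [mem_compl]
            exact fun h3 => he.1 (mem_sdiff.1 h3).1
          · intro e he1 he2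
            by_contra h3
            have h4 := (hc1 _ _ h3).1 (mem_insert_self _ _)
            have heS := (mem_miss.1 h4).1
            have heT : e ∉ T := disjoint_left.1 hST heS
            apply he2
            rw [mem_sdiff, mem_compl]
            rw [mem_compl] at he1
            exact ⟨fun h5 => he1 (mem_sdiff.2 ⟨h5, heT⟩), heT⟩
        rw [h2, h1]
        exact CharTwo.add_self_eq_zero _
    obtain ⟨u₂, hu2, hu3⟩ := ih (fun s => w s + bd u₁ s) (by
      intro s hs
      by_cases h1 : w s = 0
      · have h2 : bd u₁ s ≠ 0 := by
          intro h3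
          exact hs (by rw [h1, h3, add_zero])
        exact hbu s h2
      · exact hw s h1) (by
      intro r hr
      rw [bd_add, bd_bd, add_zero]
      exact hz r hr) hlev
    refine ⟨fun s => u₁ s + u₂ s, ?_, ?_⟩
    · intro s hs
      by_cases h1 : u₁ s = 0
      · simp only [h1, zero_add] at hs
        exact hu2 s hs
      · exact hu1 s h1
    · intro s hs
      apply hu3
      rw [bd_add, ← add_assoc] at hs
      exact hs

theorem split_mpr {cross : E → E → Prop} (hsymm : ∀ e f, cross e f → cross f e) {S T : Finset E}
    (hST : Disjoint S T)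
    (hl : ∀ Y ⊆ T, Y.Nonempty → Plane cross Y → Acy cross (Miss cross S Y)) (hS : Acy cross S) :
    Acy cross (S ∪ T) := by
  intro z hz hb
  obtain ⟨u, hu1, hu2⟩ := red hsymm hST hl (Fintype.card E) z hz (fun r _ => hb r) (by
    intro s hs
    exact absurd (card_le_univ (s ∩ T)) (by omega))
  obtain ⟨c, hc1, hc2⟩ := hS (fun s => z s + bd u s) hu2 (by
    intro r
    rw [bd_add, bd_bd, add_zero, hb])
  refine ⟨fun s => c s + u s, ?_, ?_⟩
  · intro s hs
    by_cases h1 : c s = 0
    · simp only [h1, zero_add] at hs
      exact hu1 s hs
    · obtain ⟨h2, h3⟩ := hc1 s h1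
      exact ⟨h2.trans subset_union_left, h3⟩
  · intro r
    rw [bd_add, hc2, add_assoc, CharTwo.add_self_eq_zero, add_zero]

theorem split_mp {cross : E → E → Prop} (hsymm : ∀ e f, cross e f → cross f e) {S T : Finset E}
    (hST : Disjoint S T)
    (hl : ∀ Y ⊆ T, Y.Nonempty → Plane cross Y → Acy cross (Miss cross S Y))
    (hS : Acy cross (S ∪ T)) : Acy cross S := by
  intro z hz hb
  obtain ⟨c, hc1, hc2⟩ := hS z (fun s hs => ⟨(hz s hs).1.trans subset_union_left, (hz s hs).2⟩) hb
  obtain ⟨u, hu1, hu2⟩ := red hsymm hST hl (Fintype.card E) c hc1 (by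
    intro r hr
    rw [hc2]
    by_contra h
    obtain ⟨x, hx⟩ := hr
    rw [mem_inter] at hx
    exact disjoint_left.1 hST ((hz r h).1 hx.1) hx.2) (by
    intro s hs
    exact absurd (card_le_univ (s ∩ T)) (by omega))
  refine ⟨fun s => c s + bd u s, hu2, ?_⟩
  intro r
  rw [bd_add, bd_bd, add_zero, hc2]

/-- SPLIT. -/
theorem split {cross : E → E → Prop} (hsymm : ∀ e f, cross e f → cross f e) {S T : Finset E}
    (hST : Disjoint S T)
    (hl : ∀ Y ⊆ T, Y.Nonempty → Plane cross Y → Acy cross (Miss cross S Y)) :
    Acy cross S ↔ Acy cross (S ∪ T) :=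
  ⟨split_mpr hsymm hST hl, split_mp hsymm hST hl⟩

end H98Z
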