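import Pool.Agent.Lib.H98Z.S3

/-!
# H98Z, file S5: the link lemma, Lemma P and Lemma F (helper68): walls can be taken away

`Acy (Miss Av T)`: the complex of the plane sets of available edges which miss the walls `T`.
-/

set_option autoImplicit false
set_option linter.unusedSectionVars false

namespace H98Z

open Finset H98P

section
variable {E : Type*} [Fintype E] [DecidableEq E]

/-- LINK. If the complexes on `S` and on `insert e S` are acyclic, so is the link of `e`. -/
theorem acy_link {cross : E → E → Prop} {S : Finset E} {e : E} (he : e ∉ S)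
    (hS : Acy cross S) (hS' : Acy cross (insert e S)) (hee : ¬ cross e e)
    (hsymm : ∀ e f, cross e f → cross f e) : Acy cross (Miss cross S {e}) := by
  intro z hz hb
  have hzS : ∀ s, z s ≠ 0 → s ⊆ S ∧ Plane cross s ∧ ∀ f ∈ s, ¬ cross f e := by
    intro s hs
    obtain ⟨h1, h2⟩ := hz s hs
    exact ⟨fun f hf => (mem_miss.1 (h1 hf)).1, h2,
      fun f hf => (mem_miss.1 (h1 hf)).2 e (mem_singleton_self e)⟩
  obtain ⟨y, hy1, hy2⟩ := hS z (fun s hs => ⟨(hzS s hs).1, (hzS s hs).2.1⟩) hb
  -- the cone
  have hcone : ∀ s, (if e ∈ s then z (s.erase e) else 0) ≠ 0 →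
      s ⊆ insert e S ∧ Plane cross s := by
    intro s hs
    split_ifs at hs with h
    · obtain ⟨h1, h2, h3⟩ := hzS _ hs
      have hs' : s = {e} ∪ s.erase e := by
        rw [← insert_eq, insert_erase h]
      constructor
      · intro f hf
        by_cases hfe : f = e
        · rw [hfe]; exact mem_insert_self _ _
        · exact mem_insert_of_mem (h1 (mem_erase.2 ⟨hfe, hf⟩))
      · rw [hs']
        refine plane_un hsymm ?_ h2 ?_
        · intro a ha b hb'
          rw [mem_singleton] at ha hb'
          rw [ha, hb']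
          exact hee
        · intro a ha b hb'
          rw [mem_singleton] at ha
          rw [ha]
          exact fun h => h3 b hb' (hsymm _ _ h)
    · exact absurd rfl hs
  have hbc : ∀ r, bd (fun s => if e ∈ s then z (s.erase e) else 0) r =
      if e ∈ r then 0 else z r := by
    intro r
    simp only [bd]
    by_cases h : e ∈ r
    · rw [if_pos h]
      have h1 := hb (r.erase e)
      have h2 : bd z (r.erase e) = z (insert e (r.erase e)) +
          ∑ f ∈ rᶜ, z (insert f (r.erase e)) := by
        simp only [bd]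
        rw [compl_erase, sum_insert (by simpa using h)]
      have h3 : z (insert e (r.erase e)) = 0 := by
        by_contra h4
        exact he ((hzS _ h4).1 (mem_insert_self _ _))
      rw [h1, h3, zero_add] at h2
      rw [h2]
      refine sum_congr rfl fun f hf => ?_
      rw [mem_compl] at hf
      have hfe : f ≠ e := fun h5 => hf (h5 ▸ h)
      rw [if_pos (mem_insert_of_mem h), erase_insert_of_ne hfe]
    · rw [if_neg h]
      rw [sum_eq_single e]
      · rw [if_pos (mem_insert_self _ _), erase_insert h]
      · intro f hf hfe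
        rw [if_neg]
        rw [mem_insert, not_or]
        exact ⟨Ne.symm hfe, h⟩
      · intro h4
        exact absurd (mem_compl.2 h) h4
  obtain ⟨w, hw1, hw2⟩ := hS' (fun s => (if e ∈ s then z (s.erase e) else 0) + y s) (by
    intro s hs
    by_cases h1 : (if e ∈ s then z (s.erase e) else 0) = 0
    · rw [h1, zero_add] at hs
      obtain ⟨h2, h3⟩ := hy1 s hs
      exact ⟨h2.trans (subset_insert _ _), h3⟩
    · exact hcone s h1) (by
    intro r
    rw [bd_add, hbc, hy2]
    by_cases h : e ∈ r
    · rw [if_pos h, zero_add]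
      by_contra h1
      exact he ((hzS r h1).1 h)
    · rw [if_neg h, CharTwo.add_self_eq_zero])
  refine ⟨fun s => if e ∈ s then 0 else w (insert e s), ?_, ?_⟩
  · intro s hs
    simp only at hs
    split_ifs at hs with h
    · exact absurd rfl hs
    · obtain ⟨h1, h2⟩ := hw1 _ hs
      refine ⟨fun f hf => mem_miss.2 ⟨?_, ?_⟩, plane_sub (subset_insert _ _) h2⟩
      · rcases mem_insert.1 (h1 (mem_insert_of_mem hf)) with h3 | h3
        · exact absurd (h3 ▸ hf) h
        · exact h3
      · intro g hg
        rw [mem_singleton] at hg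
        rw [hg]
        exact h2 f (mem_insert_of_mem hf) e (mem_insert_self _ _)
  · intro r
    by_cases h : e ∈ r
    · have h1 : z r = 0 := by
        by_contra h2
        exact he ((hzS r h2).1 h)
      rw [h1]
      simp only [bd]
      refine sum_eq_zero fun f _ => ?_
      rw [if_pos (mem_insert_of_mem h)]
    · have h1 := hw2 (insert e r)
      rw [if_pos (mem_insert_self _ _), erase_insert h] at h1
      have h2 : y (insert e r) = 0 := by
        by_contra h3
        exact he ((hy1 _ h3).1 (mem_insert_self _ _))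
      rw [h2, add_zero] at h1
      rw [← h1]
      simp only [bd]
      rw [compl_insert, ← add_sum_erase rᶜ _ (mem_compl.2 h), if_pos (mem_insert_self _ _),
        zero_add]
      refine sum_congr rfl fun f hf => ?_
      rw [mem_erase, mem_compl] at hf
      rw [if_neg, insert_comm]
      rw [mem_insert, not_or]
      exact ⟨Ne.symm hf.1, h⟩

end

variable {V : Type*} [Fintype V] [DecidableEq V]

/-- LEMMA P. At most one edge at `x` is not available. -/
theorem lemma_p {cross : Sym2 V → Sym2 V → Prop} (hsymm : ∀ e f, cross e f → cross f e)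
    (hadj : ∀ a b c, ¬ cross s(a, b) s(a, c)) {W : Finset V} {Av T : Finset (Sym2 V)}
    (hAv : Av ⊆ LW W) (hT : T ⊆ LW W) (hTp : Plane cross T) {x y : V}
    (hV : V2 cross W x) (hdeg : ∀ z ∈ W, z ≠ x → z ≠ y → s(x, z) ∈ Av) :
    Acy cross (Miss cross Av T) := by
  intro z hz hb
  refine acyclic (S := (Miss cross Av T).filter fun e => x ∈ e) hsymm (filter_subset _ _) ?_ ?_
    hz hb
  · intro e he f hf
    have h1 := (mem_filter.1 he).2
    have h2 := (mem_filter.1 hf).2
    obtain ⟨a, rfl⟩ := h1
    obtain ⟨b, rfl⟩ := h2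
    exact hadj x a b
  · intro G hG hGp
    have hGx : ∀ e ∈ G, x ∉ e := by
      intro e he hx
      have h1 := mem_sdiff.1 (hG he)
      exact h1.2 (mem_filter.2 ⟨h1.1, hx⟩)
    have hGU : ∀ e ∈ G, e ∈ Miss cross Av T := fun e he => (mem_sdiff.1 (hG he)).1
    obtain ⟨z, hz, z', hz', hne, h1, h2⟩ := hV ((T.filter fun e => x ∉ e) ∪ G) (by
      intro e he
      have h3 : e ∈ LW W ∧ x ∉ e := by
        rcases mem_union.1 he with h | h
        · exact ⟨hT (mem_filter.1 h).1, (mem_filter.1 h).2⟩
        · exact ⟨hAv (mem_miss.1 (hGU e h)).1, hGx e h⟩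
      obtain ⟨h4, h5⟩ := h3
      induction e with
      | _ a b =>
        rw [mem_LW] at h4 ⊢
        rw [Sym2.mem_iff, not_or] at h5
        exact ⟨mem_erase.2 ⟨Ne.symm h5.1, h4.1⟩, mem_erase.2 ⟨Ne.symm h5.2, h4.2.1⟩, h4.2.2⟩) (by
      refine plane_un hsymm (plane_sub (filter_subset _ _) hTp) hGp ?_
      intro e he f hf h
      exact (mem_miss.1 (hGU f hf)).2 e (mem_filter.1 he).1 (hsymm _ _ h))
    have key : ∀ w ∈ W.erase x, w ≠ y →
        (∀ f ∈ (T.filter fun e => x ∉ e) ∪ G, ¬ cross s(x, w) f) →
        ∃ s ∈ (Miss cross Av T).filter fun e => x ∈ e, ∀ f ∈ G, ¬ cross s f := by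
      intro w hw hwy h3
      refine ⟨s(x, w), mem_filter.2 ⟨mem_miss.2 ⟨?_, ?_⟩, Sym2.mem_mk_left x w⟩, ?_⟩
      · exact hdeg w (mem_erase.1 hw).2 (mem_erase.1 hw).1 hwy
      · intro f hf
        by_cases hxf : x ∈ f
        · obtain ⟨a, rfl⟩ := hxf
          exact hadj x w a
        · exact h3 f (mem_union_left _ (mem_filter.2 ⟨hf, hxf⟩))
      · exact fun f hf => h3 f (mem_union_right _ hf)
    by_cases hzy : z = y
    · exact key z' hz' (fun h => hne (hzy.trans h.symm)) h2
    · exact key z hz hzy h1

/-- LEMMA F. `e = xu` a wall, at most two edges at `x` are not available, `e` is one of them: the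
wall `e` may be taken away. -/
theorem lemma_f {cross : Sym2 V → Sym2 V → Prop} (hsymm : ∀ e f, cross e f → cross f e)
    (hadj : ∀ a b c, ¬ cross s(a, b) s(a, c)) {W : Finset V} {Av T : Finset (Sym2 V)}
    (hAv : Av ⊆ LW W) (hT : T ⊆ LW W) (hTp : Plane cross T) {x u y : V}
    (hV : V2 cross W x) (he : s(x, u) ∈ T) (heA : s(x, u) ∉ Av)
    (hdeg : ∀ z ∈ W, z ≠ x → z ≠ u → z ≠ y → s(x, z) ∈ Av) :
    Acy cross (Miss cross Av T) ↔ Acy cross (Miss cross Av (T.erase s(x, u))) := by
  set e := s(x, u) with hedef
  have hee : ¬ cross e e := hadj x u u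
  have hTe : T.erase e ∪ {e} = T := by
    rw [union_comm, ← insert_eq, insert_erase he]
  have hP : Acy cross (Miss cross (insert e Av) (T.erase e)) := by
    refine lemma_p hsymm hadj (W := W) (x := x) (y := y) ?_ ((erase_subset _ _).trans hT)
      (plane_sub (erase_subset _ _) hTp) hV ?_
    · exact insert_subset (hT he) hAv
    · intro z hz hzx hzy
      by_cases hzu : z = u
      · rw [hzu]; exact mem_insert_self _ _
      · exact mem_insert_of_mem (hdeg z hz hzx hzu hzy)
  have hmem : e ∈ Miss cross (insert e Av) (T.erase e) := by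
    rw [mem_miss]
    refine ⟨mem_insert_self _ _, fun f hf h => ?_⟩
    exact hTp e he f (mem_erase.1 hf).2 h
  have heq : Miss cross (insert e Av) (T.erase e) = Miss cross Av (T.erase e) ∪ {e} := by
    ext f
    rw [mem_union, mem_singleton, mem_miss, mem_miss, mem_insert]
    constructor
    · rintro ⟨h1 | h1, h2⟩
      · exact Or.inr h1
      · exact Or.inl ⟨h1, h2⟩
    · rintro (⟨h1, h2⟩ | rfl)
      · exact ⟨Or.inr h1, h2⟩
      · exact ⟨Or.inl rfl, (mem_miss.1 hmem).2⟩
  have heM : e ∉ Miss cross Av (T.erase e) := fun h => heA (mem_miss.1 h).1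
  have hmm : Miss cross (Miss cross Av (T.erase e)) {e} = Miss cross Av T := by
    rw [miss_miss, hTe]
  rw [heq] at hP
  constructor
  · intro h
    refine split_mp hsymm (disjoint_singleton_right.2 heM) (fun Y hY hYn _ => ?_) hP
    have hYe : Y = {e} := by
      rcases subset_singleton_iff.1 hY with h1 | h1
      · exact absurd h1 hYn.ne_empty
      · exact h1
    rw [hYe, hmm]
    exact h
  · intro h
    rw [← hmm]
    refine acy_link heM h ?_ hee hsymm
    rw [insert_eq, union_comm]
    exact hP

end H98Z
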